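import Pool.Agent.H.MP_60a66a_gt.K

set_option autoImplicit false

namespace Pool.Agent.Results.MP_60a66a_gt.No

open Set Filter Topology

/-- `S ⊆ ℝ³` is a real-analytic surface at each of its points: near the point it is the image of
an open planar set under a real-analytic immersion. -/
def AnalyticSurface (S : Set (EuclideanSpace ℝ (Fin 3))) : Prop :=
  ∀ y ∈ S, ∃ O : Set (EuclideanSpace ℝ (Fin 3)), IsOpen O ∧ y ∈ O ∧
    ∃ (U : Set ℂ) (ψ : ℂ → EuclideanSpace ℝ (Fin 3)), IsOpen U ∧ AnalyticOnNhd ℝ ψ U ∧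
      (∀ x ∈ U, Function.Injective (fderiv ℝ ψ x)) ∧ ψ '' U = S ∩ O

/-- The locally Euclidean metric with developing map `Φ`. -/
noncomputable def flatMetric (Φ : ℂ → ℂ) (z v w : ℂ) : ℝ :=
  inner ℝ (fderiv ℝ Φ z v) (fderiv ℝ Φ z w)

/-- `r` is a `C¹` isometric embedding of `(D, g)` into `ℝ³`. -/
def IsometricEmbedding (D : Set ℂ) (g : ℂ → ℂ → ℂ → ℝ) (r : ℂ → EuclideanSpace ℝ (Fin 3)) : Prop :=
  ContDiffOn ℝ 1 r D ∧ (∀ z ∈ D, ∀ v w, inner ℝ (fderiv ℝ r z v) (fderiv ℝ r z w) = g z v w) ∧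
    IsEmbedding (D.restrict r)

open Pool.Agent.H.MP_60a66a_gt in
theorem result : ∃ (D : Set ℂ) (Φ : ℂ → ℂ), IsOpen D ∧ Bornology.IsBounded D ∧
    IsSimplyConnected D ∧ AnalyticOnNhd ℝ Φ (closure D) ∧
    (∀ z ∈ closure D, Function.Injective (fderiv ℝ Φ z)) ∧
    ¬ ∃ r, IsometricEmbedding D (flatMetric Φ) r ∧ AnalyticSurface (r '' D) := by
  refine ⟨DD, Ph, DD_open, (Metric.isBounded_closedBall (x := 0) (r := 5000)).subset fun z hz => ?_,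
    ?_, fun z hz => Ph_an hz, fun z hz => Ph_inj hz, fun ⟨r, ⟨c, i, e⟩, a⟩ => ?_⟩
  · rw [mem_closedBall_zero_iff]
    linarith [Complex.norm_le_abs_re_add_abs_im z, hz.1, hz.2]
  · have := DD_star.contractibleSpace ⟨0, by norm_num [DD]⟩
    exact SimplyConnectedSpace.ofContractible _
  have iso : ∀ z ∈ DD, ∀ v, ‖fderiv ℝ r z v‖ = ‖fderiv ℝ Ph z v‖ := fun z hz v => by
    rw [← sq_eq_sq₀ (norm_nonneg _) (norm_nonneg _), ← real_inner_self_eq_norm_sq,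
      ← real_inner_self_eq_norm_sq]
    exact i z hz v v
  refine Ok.no (r := r) ⟨by simp, fun z hz => ?_, iso, fun x hx y hy q =>
    congrArg Subtype.val (e.injective (a₁ := ⟨x, hx⟩) (a₂ := ⟨y, hy⟩) q)⟩
  obtain ⟨O, -, m, U, ψ, oU, aψ, iψ, im⟩ := a _ ⟨z, hz, rfl⟩
  obtain ⟨x, hx, ex⟩ : r z ∈ ψ '' U := im ▸ ⟨⟨z, hz, rfl⟩, m⟩
  refine bridge DD_open c e hz (Ph_an (subset_closure hz)) (Ph_inj (subset_closure hz)) iso
    (aψ x hx) (iψ x hx) ex ?_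
  filter_upwards [oU.mem_nhds hx] with y hy
  exact (im ▸ mem_image_of_mem ψ hy : ψ y ∈ r '' DD ∩ O).1

end Pool.Agent.Results.MP_60a66a_gt.No
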